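import Pool.Agent.U174.AO.Stm

/-!
Project AO (helper174), package SGN: the sign of a unit of a henselian valuation ring whose residues are squares
or negatives of squares is determined by its residue.
-/

set_option autoImplicit false

namespace Pool.Agent.U851.AO

open IsLocalRing Polynomial Pool.Agent.U174.AK Pool.Agent.U174.AO

/-- a unit of `V` whose residue is a square is a square -/
theorem sq_of_res {K : Type} [Field K] (V : ValuationSubring K) (hV : HenselianLocalRing V)
    (h0 : CharZero (ResidueField V)) (u : V) (hu : IsUnit u) (r : ResidueField V)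
    (hr : residue V u = r ^ 2) : ∃ w : V, w ^ 2 = u := by
  have H := ((HenselianLocalRing.TFAE V).out 0 1).1 hV
  have hr0 : r ≠ 0 := by
    rintro rfl
    have h1 : residue V u = 0 := by rw [hr]; exact zero_pow two_ne_zero
    exact ((residue_ne_zero_iff_isUnit u).2 hu) h1
  obtain ⟨a, ha, -⟩ := H (X ^ 2 - C u) (monic_X_pow_sub_C u two_ne_zero) r (by
      rw [map_sub, map_pow, aeval_X, aeval_C, ResidueField.algebraMap_eq, hr, sub_self]) (by
      rw [derivative_sub, derivative_C, sub_zero, derivative_X_pow, map_mul, map_pow, aeval_X, aeval_C]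
      simp only [Nat.cast_ofNat, Nat.add_one_sub_one, pow_one, map_ofNat]
      exact mul_ne_zero two_ne_zero hr0)
  refine ⟨a, ?_⟩
  have h2 : (X ^ 2 - C u : V[X]).eval a = 0 := ha
  rw [eval_sub, eval_pow, eval_X, eval_C] at h2
  exact sub_eq_zero.1 h2

theorem t_SGN : S_SGN := by
  intro K _ V hV h0 he P hP u hu
  have huV : u ∈ V := (V.valuation_le_one_iff u).1 hu.le
  have hunit : IsUnit (⟨u, huV⟩ : V) := (V.valuation_eq_one_iff ⟨u, huV⟩).2 hu
  have hrs : rs V u = residue V ⟨u, huV⟩ := by unfold rs; rw [dif_pos huV]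
  -- squares are in `P`
  have hsq : ∀ w : K, w ≠ 0 → w ^ 2 ∈ P := by
    intro w hw
    rcases hP.tot w hw with h | h
    · rw [sq]; exact hP.mul _ h _ h
    · have h1 := hP.mul _ h _ h
      rwa [neg_mul_neg, ← sq] at h1
  have key : ∀ x : V, IsUnit x → (∃ r, residue V x = r ^ 2) → (x : K) ∈ P := by
    rintro x hx ⟨r, hr⟩
    obtain ⟨w, hw⟩ := sq_of_res V hV h0 x hx r hr
    have h1 : (x : K) = (w : K) ^ 2 := by rw [← hw]; rfl
    rw [h1]
    apply hsq
    intro h
    have h2 : (x : K) = 0 := by rw [h1, h]; exact zero_pow two_ne_zero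
    have h3 : x = 0 := Subtype.ext h2
    rw [h3] at hx
    exact not_isUnit_zero hx
  constructor
  · intro h
    rcases he (rs V u) with ⟨s, hs⟩ | ⟨s, hs⟩
    · exact ⟨s, hs⟩
    · exfalso
      have h1 : (((-⟨u, huV⟩ : V) : V) : K) ∈ P :=
        key _ hunit.neg ⟨s, by rw [map_neg, ← hrs, hs, neg_neg]⟩
      have h2 := hP.add _ h _ h1
      have h3 : u + (((-⟨u, huV⟩ : V) : V) : K) = 0 := by
        show u + -u = 0
        exact add_neg_cancel u
      rw [h3] at h2
      exact hP.zero h2
  · rintro ⟨r, hr⟩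
    exact key ⟨u, huV⟩ hunit ⟨r, by rw [← hrs, hr]⟩

end Pool.Agent.U851.AO
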